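import Mathlib
import Pool.Agent.H616R3.WojNum

set_option autoImplicit false

/-! Strict forms of the numerical inequalities behind the theorem on union-closed families of
minimum density. -/

namespace Pool.Agent.Y205.WM

open Finset Pool.Agent.H616R3

lemma E_two_pow (k : ℕ) : 2 * E (2 ^ k) = k * 2 ^ k := by
  induction k with
  | zero => simp [E_one]
  | succ k ih =>
    rw [pow_succ, mul_comm (2 ^ k) 2, E_even]
    nlinarith

lemma E_chord_strict (k : ℕ) : ∀ N : ℕ, 2 ^ k < N → N < 2 ^ (k + 1) →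
    2 * E N + 2 ^ (k + 1) < N * (k + 2) := by
  induction k with
  | zero => intro N h1 h2; norm_num at h1 h2; omega
  | succ k ih =>
    intro N h1 h2
    rcases Nat.even_or_odd' N with ⟨x, rfl | rfl⟩
    · have hx1 : 2 ^ k < x := by rw [pow_succ] at h1; omega
      have hx2 : x < 2 ^ (k + 1) := by rw [pow_succ 2 (k + 1)] at h2; omega
      have := ih x hx1 hx2
      rw [E_even, pow_succ 2 (k + 1)]
      nlinarith
    · have hx1 : 2 ^ k ≤ x := by rw [pow_succ] at h1; omega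
      have hx2 : x + 1 ≤ 2 ^ (k + 1) := by rw [pow_succ 2 (k + 1)] at h2; omega
      have h3 := E_chord k x hx1 (by omega)
      have h4 := E_chord k (x + 1) (by omega) hx2
      rw [E_odd, pow_succ 2 (k + 1)]
      nlinarith

lemma E_lt (k b : ℕ) (hb : 0 < b) (hk : b < 2 ^ k) : 2 * E b < b * k := by
  set j := Nat.log 2 b with hj
  have h1 : 2 ^ j ≤ b := Nat.pow_log_le_self 2 (by omega)
  have h2 : b < 2 ^ (j + 1) := Nat.lt_pow_succ_log_self (by norm_num) b
  have h3 : j < k := by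
    have : 2 ^ j < 2 ^ k := lt_of_le_of_lt h1 hk
    exact (Nat.pow_lt_pow_iff_right (by norm_num : 1 < 2)).1 this
  have h4 := E_chord j b h1 h2.le
  have h5 : b * (j + 1) ≤ b * k := Nat.mul_le_mul_left _ h3
  have h6 : b * (j + 2) = b * (j + 1) + b := by ring
  omega

lemma E_split (k a b : ℕ) (hab : a + b = 2 ^ k) (hle : b ≤ a) (h : E (2 ^ k) ≤ E a + E b + b) :
    b = 0 ∨ ∃ j, k = j + 1 ∧ a = 2 ^ j ∧ b = 2 ^ j := by
  rcases Nat.eq_zero_or_pos b with hb | hb
  · exact Or.inl hb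
  right
  rcases k with _ | j
  · norm_num at hab; omega
  refine ⟨j, rfl, ?_⟩
  rw [pow_succ] at hab
  rcases Nat.lt_or_ge b (2 ^ j) with h1 | h1
  · exfalso
    have h2 := E_lt j b hb h1
    have h3 := E_chord j a (by omega) (by rw [pow_succ]; omega)
    have h4 := E_two_pow (j + 1)
    have h5 : a * (j + 2) + b * (j + 2) = 2 ^ (j + 1) * (j + 2) := by
      rw [← add_mul, hab, pow_succ]
    have h6 : b * (j + 2) = b * j + 2 * b := by ring
    have h7 : 2 ^ (j + 1) * (j + 2) = (j + 1) * 2 ^ (j + 1) + 2 ^ (j + 1) := by ring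
    omega
  · omega

lemma case1_strict (k m n T2 : ℕ) (h0 : 2 ^ k ≤ m) (h0' : m < 2 ^ (k + 1))
    (h1 : m * (k + 2) < T2 + 2 ^ (k + 1)) :
    ∃ k', (k' * 2 ^ k' + 2 * n) * (m + 1) < (T2 + 2 * n) * (2 ^ k' + 1) := by
  rcases Nat.eq_zero_or_pos T2 with hT | hT
  · exfalso
    subst hT
    have h2 : 2 ^ k * (k + 2) ≤ m * (k + 2) := Nat.mul_le_mul_right _ h0
    have h3 : 2 ^ (k + 1) = 2 * 2 ^ k := by ring
    have h4 : 2 ^ k * (k + 2) = 2 ^ k * k + 2 * 2 ^ k := by ring
    omega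
  obtain ⟨k', hk'⟩ := case1 k m n (T2 - 1) h0 h0' (by omega)
  refine ⟨k', lt_of_le_of_lt hk' ?_⟩
  have : T2 - 1 + 2 * n < T2 + 2 * n := by omega
  exact Nat.mul_lt_mul_of_pos_right this (by positivity)

/-- Boolean form of the finite check, strict version -/
def chks (k m n r : ℕ) : Bool :=
  !(decide (3 ≤ n) && decide (2 ^ k ≤ m) && decide (m < 2 ^ (k + 1)) && decide (2 * r < k) &&
    decide (r ≤ n) && decide (n - r ≤ m) && decide (m + 1 ≤ 2 ^ (n - r))) ||
  (List.range 6).any (fun k' =>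
    decide ((k' * 2 ^ k' + 2 * n) * (m + 1) < 2 * (T0 k m (n - r) + n + r) * (2 ^ k' + 1)))

lemma chks_all : ∀ k < 6, ∀ m < 64, ∀ n < 27, ∀ r < 3, chks k m n r = true := by
  decide +kernel

lemma finite_check_strict (k : ℕ) (hk : k < 6) (m : ℕ) (hm : m < 64) (n : ℕ) (hn : n < 27) (r : ℕ)
    (hr : r < 3)
    (h : 3 ≤ n ∧ 2 ^ k ≤ m ∧ m < 2 ^ (k + 1) ∧ 2 * r < k ∧ r ≤ n ∧ n - r ≤ m ∧
      m + 1 ≤ 2 ^ (n - r)) :
    ∃ k' < 6, (k' * 2 ^ k' + 2 * n) * (m + 1) < 2 * (T0 k m (n - r) + n + r) * (2 ^ k' + 1) := by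
  have hc := chks_all k hk m hm n hn r hr
  obtain ⟨h0, h1, h2, h3, h4, h5, h6⟩ := h
  unfold chks at hc
  rw [decide_eq_true h0, decide_eq_true h1, decide_eq_true h2, decide_eq_true h3,
    decide_eq_true h4, decide_eq_true h5, decide_eq_true h6] at hc
  simp only [Bool.and_self, Bool.not_true, Bool.false_or, List.any_eq_true, List.mem_range,
    decide_eq_true_eq] at hc
  exact hc

/-- the boundary case `m + 1 = 2 ^ (k + 1)`, `k = 2 r` -/
lemma case_edge (r n T : ℕ) (hr : r ≤ n)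
    (h1 : (2 * r + 1) * 2 ^ (2 * r) ≤ T + (2 * r + 1))
    (h2 : (n - r) * (n - r - 1) ≤ 2 * T) (hn : 3 ≤ n) :
    ∃ k', (k' * 2 ^ k' + 2 * n) * (2 * 2 ^ (2 * r)) < 2 * (T + n + r) * (2 ^ k' + 1) := by
  rcases lt_trichotomy (2 * n) (2 * 2 ^ (2 * r) + 2 * r + 2) with h | h | h
  · -- use k' = 2 r
    refine ⟨2 * r, ?_⟩
    generalize hK : 2 ^ (2 * r) = K at *
    have hK1 : 2 ≤ K := by
      rcases Nat.eq_zero_or_pos r with h0 | h0
      · subst h0
        norm_num at hK
        omega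
      · rw [← hK]
        calc 2 = 2 ^ 1 := by norm_num
          _ ≤ _ := Nat.pow_le_pow_right (by norm_num) (by omega)
    zify at *
    nlinarith [mul_pos (show (0 : ℤ) < 2 * (K : ℤ) + 2 * r + 2 - 2 * n by linarith)
      (show (0 : ℤ) < (K : ℤ) - 1 by linarith), mul_nonneg
      (show (0 : ℤ) ≤ (T : ℤ) + (2 * r + 1) - (2 * r + 1) * K by linarith)
      (show (0 : ℤ) ≤ (K : ℤ) + 1 by linarith)]
  · -- tie
    refine ⟨2 * r, ?_⟩
    have hns : n - r = 2 ^ (2 * r) + 1 := by omega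
    rw [hns] at h2
    simp only [Nat.add_sub_cancel] at h2
    have hT : (2 * r + 1) * 2 ^ (2 * r) < T + (2 * r + 1) := by
      rcases r with _ | _ | r
      · norm_num at h2 h ⊢
        omega
      · norm_num at h2 ⊢
        omega
      · have h3 : 2 * (2 * (r + 2)) + 2 ≤ 2 ^ (2 * (r + 2)) := by
          clear h h1 h2 hns hr
          induction r with
          | zero => norm_num
          | succ r ih =>
            have : 2 ^ (2 * (r + 1 + 2)) = 4 * 2 ^ (2 * (r + 2)) := by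
              rw [show 2 * (r + 1 + 2) = 2 * (r + 2) + 2 by ring, pow_add]
              ring
            rw [this]
            omega
        have e : r + 1 + 1 = r + 2 := by ring
        rw [e] at *
        generalize 2 ^ (2 * (r + 2)) = K at *
        nlinarith
    generalize hK : 2 ^ (2 * r) = K at *
    have hK1 : 1 ≤ K := by rw [← hK]; exact Nat.one_le_two_pow
    zify at *
    nlinarith [mul_pos (show (0 : ℤ) < (T : ℤ) + (2 * r + 1) - (2 * r + 1) * K by linarith)
      (show (0 : ℤ) < (K : ℤ) + 1 by linarith)]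
  · refine ⟨2 * r + 1, ?_⟩
    rw [pow_succ]
    generalize hK : 2 ^ (2 * r) = K at *
    zify at *
    nlinarith [mul_nonneg
      (show (0 : ℤ) ≤ (T : ℤ) + (2 * r + 1) - (2 * r + 1) * K by linarith)
      (show (0 : ℤ) ≤ 2 * (K : ℤ) + 1 by positivity)]

end Pool.Agent.Y205.WM
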