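import Mathlib
import Pool.Agent.Y205.WM.Num

set_option autoImplicit false

/-! Strict form of the second numerical case. -/

namespace Pool.Agent.Y205.WM

open Finset Pool.Agent.H616R3

lemma case2_strict (k m n r T : ℕ) (hn3 : 3 ≤ n) (h0 : 2 ^ k ≤ m) (h0' : m < 2 ^ (k + 1))
    (hr : r ≤ n)
    (h1 : m * (k + 2) + 1 ≤ T + 2 ^ (k + 1) + E (m + 1))
    (h2 : (n - r) * (n - r - 1) ≤ 2 * T) (h3 : n - r ≤ m) (h4 : m + 1 ≤ 2 ^ (n - r)) :
    ∃ k', (k' * 2 ^ k' + 2 * n) * (m + 1) < 2 * (T + n + r) * (2 ^ k' + 1) := by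
  have hch := E_chord k (m + 1) (by omega) (by omega)
  have hT : m * (k + 2) ≤ 2 * T + k + 2 ^ (k + 1) := by nlinarith
  rcases Nat.lt_or_ge (2 * r) k with hrk | hrk
  swap
  · rcases Nat.lt_or_ge (m + 1) (2 ^ (k + 1)) with hm | hm
    · have hch' := E_chord_strict k (m + 1) (by omega) hm
      have hT' : m * (k + 2) < 2 * T + k + 2 ^ (k + 1) := by nlinarith
      obtain ⟨k', hk'⟩ := case1_strict k m n (2 * T + 2 * r) h0 h0' (by omega)
      refine ⟨k', hk'.trans_le (le_of_eq (by ring))⟩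
    · rcases Nat.lt_or_ge k (2 * r) with hkr | hkr
      · obtain ⟨k', hk'⟩ := case1_strict k m n (2 * T + 2 * r) h0 h0' (by omega)
        refine ⟨k', hk'.trans_le (le_of_eq (by ring))⟩
      · obtain rfl : k = 2 * r := le_antisymm hrk hkr
        have hm1 : m + 1 = 2 ^ (2 * r + 1) := by omega
        have hE := E_two_pow (2 * r + 1)
        rw [hm1] at h1
        have hm2 : m + 1 = 2 * 2 ^ (2 * r) := by rw [hm1, pow_succ]; ring
        rw [hm2]
        apply case_edge r n T hr _ h2 hn3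
        have e : 2 ^ (2 * r + 1) = 2 * 2 ^ (2 * r) := by ring
        rw [e] at h1 hE
        obtain ⟨m', rfl⟩ : ∃ m', m = m' := ⟨m, rfl⟩
        generalize E (2 * 2 ^ (2 * r)) = e1 at *
        generalize 2 ^ (2 * r) = K at *
        have hm3 : (m + 1) * (2 * r + 2) = 2 * K * (2 * r + 2) := by rw [hm2]
        nlinarith
  obtain ⟨c, rfl⟩ : ∃ c, k = c + 1 := ⟨k - 1, by omega⟩
  rcases Nat.lt_or_ge (2 ^ c) n with hn | hn
  swap
  · -- n ≤ 2^c
    refine ⟨c, ?_⟩
    obtain ⟨j, rfl⟩ := Nat.exists_eq_add_of_le h0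
    have hc : c + 1 < 2 ^ c := by
      rcases c with _ | _ | c
      · norm_num at hn; omega
      · norm_num at hn; omega
      · clear h0 h0' h1 h2 h3 h4 hch hT hrk hn
        induction c with
        | zero => norm_num
        | succ c ih =>
          have : 2 ^ (c + 1 + 1 + 1) = 2 * 2 ^ (c + 1 + 1) := by ring
          omega
    have e1 : 2 ^ (c + 1) = 2 * 2 ^ c := by ring
    have e2 : 2 ^ (c + 1 + 1) = 4 * 2 ^ c := by ring
    rw [e2, e1] at hT
    rw [e1]
    generalize 2 ^ c = K at *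
    have hT2 : (2 * K + j) * (c + 3) + 2 * n ≤ (2 * T + 2 * n + 2 * r) + (c + 1) + 4 * K := by
      have : (2 * K + j) * (c + 1 + 2) = (2 * K + j) * (c + 3) := by ring
      omega
    have hA : (c * K + 2 * n) * (2 * K + j + 1) + ((c + 1) + 4 * K) * (K + 1) <
        ((2 * K + j) * (c + 3) + 2 * n) * (K + 1) := by
      zify at *
      nlinarith [mul_nonneg (show (0 : ℤ) ≤ (K : ℤ) - n by linarith)
        (show (0 : ℤ) ≤ (K : ℤ) + j by positivity), mul_nonneg (show (0 : ℤ) ≤ (j : ℤ) by positivity)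
        (show (0 : ℤ) ≤ (K : ℤ) by positivity), mul_nonneg (show (0 : ℤ) ≤ (j : ℤ) by positivity)
        (show (0 : ℤ) ≤ (c : ℤ) by positivity)]
    have hB : ((2 * K + j) * (c + 3) + 2 * n) * (K + 1) ≤
        ((2 * T + 2 * n + 2 * r) + (c + 1) + 4 * K) * (K + 1) := by gcongr
    have hC : ((2 * T + 2 * n + 2 * r) + (c + 1) + 4 * K) * (K + 1) =
        2 * (T + n + r) * (K + 1) + ((c + 1) + 4 * K) * (K + 1) := by ring
    omega
  rcases Nat.lt_or_ge n (5 * (c + 1) + 2) with hn5 | hn5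
  · -- finite check
    have hk6 : c + 1 < 6 := by
      by_contra hcon
      have := pow_small (c + 1) (by omega)
      simp only [Nat.add_sub_cancel] at this
      omega
    have hm64 : m < 64 := by
      have : 2 ^ (c + 1 + 1) ≤ 2 ^ 6 := Nat.pow_le_pow_right (by norm_num) (by omega)
      norm_num at this
      omega
    obtain ⟨k', _, hk'⟩ := finite_check_strict (c + 1) hk6 m hm64 n (by omega) r (by omega)
      ⟨hn3, h0, h0', hrk, hr, h3, h4⟩
    refine ⟨k', hk'.trans_le ?_⟩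
    have hT0 : T0 (c + 1) m (n - r) ≤ T := by
      unfold T0
      rw [Etab_eq (m + 1) (by omega)]
      apply max_le
      · omega
      · omega
    gcongr
  · -- large n
    refine ⟨c + 1, ?_⟩
    have e1 : 2 ^ (c + 1) = 2 * 2 ^ c := by ring
    have e2 : 2 ^ (c + 1 + 1) = 4 * 2 ^ c := by ring
    rw [e2] at h0'
    rw [e1]
    have key : (c + 1) * (4 * 2 ^ c) + 2 * n ≤ 2 * T := by
      have hs : 1 ≤ n - r := by omega
      obtain ⟨s, hs'⟩ : ∃ s, n - r = s + 1 := ⟨n - r - 1, by omega⟩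
      rw [hs'] at h2
      simp only [Nat.add_sub_cancel] at h2
      have hns : n = s + 1 + r := by omega
      refine le_trans ?_ h2
      have h6 : 2 * n ≤ 2 * s + 2 + c := by omega
      generalize 2 ^ c = K at *
      have hK : K + 1 ≤ n := hn
      have h7 : (c + 1) * (4 * K) ≤ (c + 1) * (4 * (n - 1)) := by gcongr; omega
      obtain ⟨n', rfl⟩ : ∃ n', n = n' + 1 := ⟨n - 1, by omega⟩
      simp only [Nat.add_sub_cancel] at h7
      nlinarith
    generalize 2 ^ c = K at *
    have h8 : m + 1 ≤ 4 * K := by omega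
    have h9 : (2 * T + 2 * n) * (2 * K) + 2 * (T + n + r) ≤ 2 * (T + n + r) * (2 * K + 1) := by
      nlinarith
    have h10 : ((c + 1) * (2 * K) + 2 * n) * (m + 1) ≤ (2 * T + 2 * n) * (2 * K) := by
      calc ((c + 1) * (2 * K) + 2 * n) * (m + 1) ≤ ((c + 1) * (2 * K) + 2 * n) * (4 * K) := by
            gcongr
        _ = ((c + 1) * (4 * K) + 2 * n + 2 * n) * (2 * K) := by ring
        _ ≤ (2 * T + 2 * n) * (2 * K) := by gcongr
    omega

end Pool.Agent.Y205.WM
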