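import Mathlib
import Pool.Agent.Y205.WM.Num

set_option autoImplicit false

/-! The union-closed families with `2 ^ k` members and minimal total size are the power sets. -/

namespace Pool.Agent.Y205.WM

open Finset Pool.Agent.H616R3

variable {α : Type*} [DecidableEq α]

/-- equality in the edge-isoperimetric inequality for up-sets with `2 ^ k` members -/
lemma iso_eq (V : Finset α) : ∀ k : ℕ, ∀ U : Finset (Finset α), (∀ B ∈ U, B ⊆ V) →
    (∀ v ∈ V, Up v U) → U.card = 2 ^ k → E (2 ^ k) ≤ ∑ B ∈ U, (V \ B).card →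
    ∃ B ∈ U, (V \ B).card = k := by
  induction V using Finset.induction_on with
  | empty =>
    intro k U hU _ hc _
    have hne : U.Nonempty := card_pos.1 (by rw [hc]; positivity)
    obtain ⟨B, hB⟩ := hne
    have hle : U.card ≤ 1 := by
      have : U ⊆ {∅} := by
        intro A hA
        rw [mem_singleton]
        exact subset_empty.1 (hU A hA)
      exact card_le_card this
    rw [hc] at hle
    have hk : k = 0 := by
      by_contra h
      have : 2 ^ 1 ≤ 2 ^ k := Nat.pow_le_pow_right (by norm_num) (by omega)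
      omega
    exact ⟨B, hB, by simp [hk]⟩
  | insert v V hv ih =>
    intro k U hU hup hc hE0
    set U0 := U.filter (fun B => v ∉ B) with hU0
    set U1 := U.filter (fun B => v ∈ B) with hU1
    set U1' := U1.image (fun B => B.erase v) with hU1'
    have hinj : Set.InjOn (fun B : Finset α => B.erase v) (U1 : Set (Finset α)) := by
      intro A hA B hB h
      have hA' : v ∈ A := by
        have : A ∈ U1 := hA
        simp only [hU1, mem_filter] at this; exact this.2
      have hB' : v ∈ B := by
        have : B ∈ U1 := hB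
        simp only [hU1, mem_filter] at this; exact this.2
      have h' : A.erase v = B.erase v := h
      rw [← insert_erase hA', ← insert_erase hB', h']
    have hcard1 : U1'.card = U1.card := card_image_of_injOn hinj
    have hsum : U.card = U1.card + U0.card := by
      rw [hU1, hU0]; exact (card_filter_add_card_filter_not _).symm
    have h0sub : U0 ⊆ U1' := by
      intro B hB
      simp only [hU0, mem_filter] at hB
      rw [hU1', mem_image]
      refine ⟨insert v B, ?_, erase_insert hB.2⟩
      simp only [hU1, mem_filter]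
      exact ⟨hup v (mem_insert_self _ _) B hB.1, mem_insert_self _ _⟩
    have h0le : U0.card ≤ U1.card := by rw [← hcard1]; exact card_le_card h0sub
    have c0 : ∀ B ∈ U0, B ⊆ V := by
      intro B hB
      simp only [hU0, mem_filter] at hB
      intro x hx
      rcases mem_insert.1 (hU B hB.1 hx) with rfl | h
      · exact absurd hx hB.2
      · exact h
    have d0 : ∀ w ∈ V, Up w U0 := by
      intro w hw B hB
      simp only [hU0, mem_filter] at hB ⊢
      refine ⟨hup w (mem_insert_of_mem hw) B hB.1, ?_⟩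
      rw [mem_insert]
      rintro (rfl | h)
      · exact hv hw
      · exact hB.2 h
    have c1 : ∀ B ∈ U1', B ⊆ V := by
      intro B hB
      rw [hU1', mem_image] at hB
      obtain ⟨A, hA, rfl⟩ := hB
      simp only [hU1, mem_filter] at hA
      intro x hx
      rw [mem_erase] at hx
      rcases mem_insert.1 (hU A hA.1 hx.2) with rfl | h
      · exact absurd rfl hx.1
      · exact h
    have d1 : ∀ w ∈ V, Up w U1' := by
      intro w hw B hB
      rw [hU1', mem_image] at hB
      obtain ⟨A, hA, rfl⟩ := hB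
      simp only [hU1, mem_filter] at hA
      rw [hU1', mem_image]
      refine ⟨insert w A, ?_, ?_⟩
      · simp only [hU1, mem_filter]
        exact ⟨hup w (mem_insert_of_mem hw) A hA.1, mem_insert_of_mem hA.2⟩
      · have hwv : w ≠ v := by rintro rfl; exact hv hw
        show (insert w A).erase v = insert w (A.erase v)
        rw [erase_insert_of_ne hwv]
    have i0 := iso V U0 c0 d0
    have i1 := iso V U1' c1 d1
    have hs1' : ∀ B ∈ U1, (insert v V \ B).card = (V \ B.erase v).card := by
      intro B hB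
      simp only [hU1, mem_filter] at hB
      congr 1
      ext x
      simp only [mem_sdiff, mem_erase, mem_insert]
      constructor
      · rintro ⟨h1, h2⟩
        rcases h1 with rfl | h1
        · exact absurd hB.2 h2
        · exact ⟨h1, fun h => h2 h.2⟩
      · rintro ⟨h1, h2⟩
        refine ⟨Or.inr h1, fun h => h2 ⟨?_, h⟩⟩
        rintro rfl; exact hv h1
    have hs1 : ∑ B ∈ U1', (V \ B).card = ∑ B ∈ U1, (insert v V \ B).card := by
      rw [hU1', sum_image hinj]
      exact (sum_congr rfl hs1').symm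
    have hs0' : ∀ B ∈ U0, (insert v V \ B).card = (V \ B).card + 1 := by
      intro B hB
      simp only [hU0, mem_filter] at hB
      rw [insert_sdiff_of_notMem _ hB.2, card_insert_of_notMem]
      simp [hv]
    have hs0 : ∑ B ∈ U0, (insert v V \ B).card = ∑ B ∈ U0, (V \ B).card + U0.card := by
      rw [card_eq_sum_ones, ← sum_add_distrib]
      exact sum_congr rfl hs0'
    have htot : ∑ B ∈ U, (insert v V \ B).card =
        ∑ B ∈ U1, (insert v V \ B).card + ∑ B ∈ U0, (insert v V \ B).card := by
      rw [hU1, hU0]; exact (sum_filter_add_sum_filter_not _ _ _).symm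
    rw [htot, hs0, ← hs1] at hE0
    rw [hcard1] at i1
    rcases E_split k U1.card U0.card (by omega) h0le (by omega) with h | ⟨j, rfl, ha, hb⟩
    · -- all members contain `v`
      have hc1 : U1'.card = 2 ^ k := by rw [hcard1]; omega
      have hE : ∑ B ∈ U0, (V \ B).card = 0 := by
        rw [card_eq_zero.1 h]; simp
      obtain ⟨B, hB, hBc⟩ := ih k U1' c1 d1 hc1 (by omega)
      rw [hU1', mem_image] at hB
      obtain ⟨A, hA, rfl⟩ := hB
      refine ⟨A, (mem_filter.1 hA).1, ?_⟩
      rw [hs1' A hA]
      exact hBc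
    · have hE2 := E_super (2 ^ j) (2 ^ j)
      rw [min_self] at hE2
      have hE3 : E (2 ^ (j + 1)) = 2 * E (2 ^ j) + 2 ^ j := by
        rw [pow_succ, mul_comm (2 ^ j) 2, E_even]
      rw [ha] at i1
      rw [hb] at i0
      obtain ⟨B, hB, hBc⟩ := ih j U0 c0 d0 hb (by omega)
      exact ⟨B, (mem_filter.1 hB).1, by rw [hs0' B hB, hBc]⟩

/-- A union-closed family with `2 ^ k` members of total size at most `k 2 ^ (k - 1)` is the power
set of a `k`-element set. -/
theorem reimer_eq (V : Finset α) (F : Finset (Finset α)) (hF : UC F) (hFV : ∀ A ∈ F, A ⊆ V)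
    (k : ℕ) (hc : F.card = 2 ^ k) (hs : 2 * ∑ A ∈ F, A.card ≤ k * 2 ^ k) :
    ∃ S ⊆ V, S.card = k ∧ F = S.powerset := by
  classical
  set φ := cmap V.toList F with hφ
  have hsub : ∀ A ∈ F, φ A ⊆ V := fun A hA => cmap_subset _ _ _ _ (hFV A hA) (by simp)
  have hle : ∀ A, A.card ≤ (φ A).card := fun A => card_le_card (subset_cmap _ _ _)
  have hint := interval_sum V F hF F Subset.rfl V.powerset (by
    intro A hA C _ hC
    exact mem_powerset.2 (hC.trans (hsub A hA)))
  rw [card_powerset, ← hφ] at hint
  have hcardle : F.card ≤ 2 ^ V.card := by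
    rw [← card_powerset]
    exact card_le_card (fun A hA => mem_powerset.2 (hFV A hA))
  have hkn : k ≤ V.card := by
    rw [hc] at hcardle
    exact (Nat.pow_le_pow_iff_right (by norm_num : 1 < 2)).1 hcardle
  rcases Nat.lt_or_ge k V.card with hkV | hkV
  swap
  · have hkV' : k = V.card := le_antisymm hkn hkV
    refine ⟨V, Subset.rfl, hkV'.symm, ?_⟩
    apply eq_of_subset_of_card_le (fun A hA => mem_powerset.2 (hFV A hA))
    rw [card_powerset, hc, hkV']
  have hinjφ : Set.InjOn φ (F : Set (Finset α)) := cmap_injOn _ _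
  have hupU : ∀ v ∈ V, Up v (F.image φ) := by
    intro v hv
    rw [hφ, ← cfam_eq]
    exact up_cfam _ _ _ (by simpa using hv)
  have hUV : ∀ B ∈ F.image φ, B ⊆ V := by
    intro B hB
    obtain ⟨A, hA, rfl⟩ := mem_image.1 hB
    exact hsub A hA
  have hUc : (F.image φ).card = 2 ^ k := by rw [card_image_of_injOn hinjφ, hc]
  have hsumU : ∑ B ∈ F.image φ, (V \ B).card = ∑ A ∈ F, (V.card - (φ A).card) := by
    rw [sum_image hinjφ]
    apply sum_congr rfl
    intro A hA
    rw [card_sdiff_of_subset (hsub A hA)]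
  have hw : ∑ A ∈ F, (V.card - (φ A).card) ≤ E (2 ^ k) := by
    rw [← hsumU, ← hUc]
    exact iso V _ hUV hupU
  have hT : ∑ A ∈ F, A.card + ∑ A ∈ F, ((φ A).card - A.card) +
      ∑ A ∈ F, (V.card - (φ A).card) = 2 ^ k * V.card := by
    rw [← sum_add_distrib, ← sum_add_distrib, ← smul_eq_mul (2 ^ k), ← hc, ← sum_const]
    apply sum_congr rfl
    intro A hA
    have h1 := hle A
    have h2 : (φ A).card ≤ V.card := card_le_card (hsub A hA)
    omega
  obtain ⟨c, hcV⟩ := Nat.exists_eq_add_of_lt hkV
  have hE := E_two_pow k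
  set D := ∑ A ∈ F, ((φ A).card - A.card) with hD
  have hD1 : 2 ^ k * (c + 1) ≤ D := by
    have h1 : 2 ^ k * V.card = 2 ^ k * (c + 1) + k * 2 ^ k := by rw [hcV]; ring
    omega
  -- two tangent lines
  have hline : ∀ a : ℕ, (2 ^ (a + 1) * 2 ^ k = 2 ^ V.card ∨ 2 ^ a * 2 ^ k = 2 ^ V.card) → True :=
    fun _ _ => trivial
  have hP : 2 ^ V.card = 2 ^ (c + 1) * 2 ^ k := by rw [← pow_add, hcV]; congr 1; ring
  have t1 : ∀ A ∈ F, 2 ^ (c + 1) * (((φ A).card - A.card) + 1) =
      2 ^ ((φ A).card - A.card) + 2 ^ (c + 1) * (c + 1) := by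
    apply (sum_eq_sum_iff_of_le (fun A _ => two_pow_convex (c + 1) _)).1
    apply le_antisymm (sum_le_sum (fun A _ => two_pow_convex (c + 1) _))
    rw [← mul_sum, sum_add_distrib, sum_add_distrib, sum_const, sum_const]
    simp only [smul_eq_mul, mul_one]
    rw [hc, ← hD]
    rw [hP] at hint
    calc _ ≤ 2 ^ (c + 1) * 2 ^ k + 2 ^ k * (2 ^ (c + 1) * (c + 1)) := by omega
      _ = 2 ^ (c + 1) * (2 ^ k * (c + 1) + 2 ^ k) := by ring
      _ ≤ _ := by gcongr
  have t2 : ∀ A ∈ F, 2 ^ c * (((φ A).card - A.card) + 1) =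
      2 ^ ((φ A).card - A.card) + 2 ^ c * c := by
    apply (sum_eq_sum_iff_of_le (fun A _ => two_pow_convex c _)).1
    apply le_antisymm (sum_le_sum (fun A _ => two_pow_convex c _))
    rw [← mul_sum, sum_add_distrib, sum_add_distrib, sum_const, sum_const]
    simp only [smul_eq_mul, mul_one]
    rw [hc, ← hD]
    rw [hP] at hint
    calc _ ≤ 2 ^ (c + 1) * 2 ^ k + 2 ^ k * (2 ^ c * c) := by omega
      _ = 2 ^ c * (2 ^ k * (c + 1) + 2 ^ k) := by ring
      _ ≤ _ := by gcongr
  have hd : ∀ A ∈ F, (φ A).card = A.card + (c + 1) := by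
    intro A hA
    have h1 := t1 A hA
    have h2 := t2 A hA
    have h3 := hle A
    obtain ⟨e, he⟩ := Nat.exists_eq_add_of_le h3
    rw [he, Nat.add_sub_cancel_left] at h1 h2
    rw [he]
    congr 1
    have hpos : 0 < 2 ^ c := by positivity
    rw [pow_succ] at h1
    have h4 : 2 ^ c * (e + 1) = 2 ^ c * (c + 2) := by
      generalize 2 ^ e = x at *
      generalize 2 ^ c = y at *
      nlinarith
    have h5 := Nat.eq_of_mul_eq_mul_left hpos h4
    omega
  have hDeq : D = 2 ^ k * (c + 1) := by
    rw [hD, ← hc, ← smul_eq_mul F.card, ← sum_const]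
    apply sum_congr rfl
    intro A hA
    rw [hd A hA]; omega
  obtain ⟨B, hB, hBk⟩ := iso_eq V k (F.image φ) hUV hupU hUc (by
    rw [hsumU]
    have h1 : 2 ^ k * V.card = 2 ^ k * (c + 1) + k * 2 ^ k := by rw [hcV]; ring
    omega)
  have hBV := hUV B hB
  have hBc : B.card = c + 1 := by
    rw [card_sdiff_of_subset hBV] at hBk
    have := card_le_card hBV
    omega
  -- the empty set
  have hempty : ∅ ∈ F := by
    obtain ⟨A, hA, hAB⟩ := mem_image.1 hB
    have h1 := hd A hA
    rw [hAB, hBc] at h1
    have h2 : A = ∅ := card_eq_zero.1 (by omega)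
    rwa [h2] at hA
  -- singletons
  set S := V.filter (fun x => ({x} : Finset α) ∈ F) with hS
  have hone : ∀ v ∈ V \ B, ∃ x, ({x} : Finset α) ∈ F ∧ φ {x} = insert v B := by
    intro v hv
    rw [mem_sdiff] at hv
    have h1 : insert v B ∈ F.image φ := hupU v hv.1 B hB
    obtain ⟨A, hA, hAB⟩ := mem_image.1 h1
    have h2 := hd A hA
    rw [hAB, card_insert_of_notMem hv.2, hBc] at h2
    obtain ⟨x, rfl⟩ := card_eq_one.1 (show A.card = 1 by omega)
    exact ⟨x, hA, hAB⟩
  choose! g hg1 hg2 using hone
  have hgS : ∀ v ∈ V \ B, g v ∈ S := by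
    intro v hv
    rw [hS, mem_filter]
    exact ⟨hFV _ (hg1 v hv) (mem_singleton_self _), hg1 v hv⟩
  have hginj : Set.InjOn g (V \ B : Finset α) := by
    intro v hv w hw h
    have hv' := mem_coe.1 hv
    have hw' := mem_coe.1 hw
    have h1 := hg2 v hv'
    rw [h, hg2 w hw'] at h1
    have h2 : v ∈ insert w B := by rw [h1]; exact mem_insert_self _ _
    rcases mem_insert.1 h2 with h3 | h3
    · exact h3
    · exact absurd h3 (mem_sdiff.1 hv').2
  have hkS : k ≤ S.card := by
    rw [← hBk, ← card_image_of_injOn hginj]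
    apply card_le_card
    intro x hx
    obtain ⟨v, hv, rfl⟩ := mem_image.1 hx
    exact hgS v hv
  have hpow : S.powerset ⊆ F := by
    intro T hT'
    rw [mem_powerset] at hT'
    induction T using Finset.induction_on with
    | empty => exact hempty
    | insert x T hx ih =>
      have h1 : x ∈ S := hT' (mem_insert_self _ _)
      rw [hS, mem_filter] at h1
      have h2 := hF _ h1.2 _ (ih ((subset_insert _ _).trans hT'))
      rwa [← insert_eq] at h2
  have hcS : 2 ^ S.card ≤ 2 ^ k := by
    rw [← card_powerset, ← hc]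
    exact card_le_card hpow
  have hSk : S.card = k :=
    le_antisymm ((Nat.pow_le_pow_iff_right (by norm_num : 1 < 2)).1 hcS) hkS
  refine ⟨S, filter_subset _ _, hSk, ?_⟩
  symm
  apply eq_of_subset_of_card_le hpow
  rw [card_powerset, hc, hSk]

end Pool.Agent.Y205.WM
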