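import Mathlib
import Pool.Agent.H616R3.WojMain
import Pool.Agent.Y205.WM.Case
import Pool.Agent.Y205.WM.Reim

set_option autoImplicit false

/-! Strict form of the main bound for union-closed families. -/

namespace Pool.Agent.Y205.WM

open Finset Pool.Agent.H616R3

variable {α : Type*} [DecidableEq α]

/-- Either the bound is strict or the family is the power set of a proper subset of the ground set
together with the ground set, or the power set of a two-element ground set. -/
theorem main_strict (V : Finset α) (F : Finset (Finset α)) (hF : UC F) (hFV : ∀ A ∈ F, A ⊆ V)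
    (hV : V ∈ F) (hn : 1 ≤ V.card) :
    (∃ k', (k' * 2 ^ k' + 2 * V.card) * F.card < 2 * (∑ A ∈ F, A.card) * (2 ^ k' + 1)) ∨
    (∃ S, S ⊂ V ∧ F = insert V S.powerset) ∨ (V.card = 2 ∧ F = V.powerset) := by
  classical
  have hFcard : F.card = (F.erase V).card + 1 := by
    rw [card_erase_of_mem hV]
    have : 0 < F.card := card_pos.2 ⟨V, hV⟩
    omega
  have hsumF : ∑ A ∈ F, A.card = ∑ A ∈ F.erase V, A.card + V.card := by
    rw [sum_erase_add _ _ hV]
  rcases Nat.eq_zero_or_pos (F.erase V).card with hm | hm
  · left
    refine ⟨0, ?_⟩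
    rw [hFcard, hm, hsumF]
    norm_num
    omega
  set m := (F.erase V).card with hmdef
  set k := Nat.log 2 m with hk
  have h0 : 2 ^ k ≤ m := Nat.pow_log_le_self 2 (by omega)
  have h0' : m < 2 ^ (k + 1) := Nat.lt_pow_succ_log_self (by norm_num) m
  by_cases hUC : UC (F.erase V)
  · -- the family without the top is union-closed
    have hFV' : ∀ A ∈ F.erase V, A ⊆ V := fun A hA => hFV A (mem_of_mem_erase hA)
    have h1 := weight_uc V (F.erase V) hUC hFV' k h0
    have h2 := E_chord k m h0 h0'.le
    rw [← hmdef] at h1
    rcases Nat.lt_or_ge (m * (k + 2)) (2 * ∑ A ∈ F.erase V, A.card + 2 ^ (k + 1)) with h3 | h3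
    · left
      obtain ⟨k', hk'⟩ := case1_strict k m V.card (2 * ∑ A ∈ F.erase V, A.card) h0 h0' h3
      refine ⟨k', ?_⟩
      rw [hFcard, hsumF]
      refine hk'.trans_le (le_of_eq (by ring))
    · right; left
      have hmk : m = 2 ^ k := by
        rcases Nat.lt_or_ge (2 ^ k) m with h4 | h4
        · have h5 := E_chord_strict k m h4 h0'
          omega
        · omega
      have h5 : 2 * ∑ A ∈ F.erase V, A.card ≤ k * 2 ^ k := by
        have h6 : m * (k + 2) = k * 2 ^ k + 2 ^ (k + 1) := by rw [hmk]; ring
        omega
      obtain ⟨S, hSV, _, hS⟩ := reimer_eq V (F.erase V) hUC hFV' k (by rw [← hmdef, hmk]) h5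
      refine ⟨S, ?_, ?_⟩
      · rw [Finset.ssubset_iff_subset_ne]
        refine ⟨hSV, ?_⟩
        rintro rfl
        have : S ∈ F.erase S := by rw [hS]; exact mem_powerset.2 Subset.rfl
        simp at this
      · rw [← hS, insert_erase hV]
  · unfold UC at hUC
    push Not at hUC
    obtain ⟨A, hA, B, hB, hAB⟩ := hUC
    have hAB' : A ∪ B = V := by
      by_contra hne
      exact hAB (mem_erase.2 ⟨hne, hF A (mem_of_mem_erase hA) B (mem_of_mem_erase hB)⟩)
    have hAne : A ≠ V := (mem_erase.1 hA).1
    have hBne : B ≠ V := (mem_erase.1 hB).1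
    have hABne : A ≠ B := by
      rintro rfl
      rw [union_self] at hAB'
      exact hAne hAB'
    have hsub3 : ({V, A, B} : Finset (Finset α)) ⊆ F := by
      intro X hX
      simp only [mem_insert, mem_singleton] at hX
      rcases hX with rfl | rfl | rfl
      · exact hV
      · exact mem_of_mem_erase hA
      · exact mem_of_mem_erase hB
    have hVA : V ∉ ({A, B} : Finset (Finset α)) := by
      simp only [mem_insert, mem_singleton]
      push Not
      exact ⟨hAne.symm, hBne.symm⟩
    have hAB3 : A ∉ ({B} : Finset (Finset α)) := by simpa using hABne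
    rcases Nat.lt_or_ge V.card 3 with hsmall | hn3
    · -- the ground set has at most two elements
      have hA1 : A.card < V.card :=
        card_lt_card (Finset.ssubset_iff_subset_ne.2 ⟨hFV A (mem_of_mem_erase hA), hAne⟩)
      have hB1 : B.card < V.card :=
        card_lt_card (Finset.ssubset_iff_subset_ne.2 ⟨hFV B (mem_of_mem_erase hB), hBne⟩)
      have hU : V.card ≤ A.card + B.card := by rw [← hAB']; exact card_union_le _ _
      have hV2 : V.card = 2 := by omega
      by_cases he : (∅ : Finset α) ∈ F
      · right; right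
        refine ⟨hV2, ?_⟩
        apply eq_of_subset_of_card_le (fun X hX => mem_powerset.2 (hFV X hX))
        rw [card_powerset, hV2]
        have h4 : insert ∅ ({V, A, B} : Finset (Finset α)) ⊆ F := insert_subset he hsub3
        have h5 : (∅ : Finset α) ∉ ({V, A, B} : Finset (Finset α)) := by
          simp only [mem_insert, mem_singleton]
          push Not
          refine ⟨?_, ?_, ?_⟩
          · intro h; rw [← h] at hV2; simp at hV2
          · intro h; rw [← h] at hU hA1; simp at hU; omega
          · intro h; rw [← h] at hU hB1; simp at hU; omega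
        have h6 := card_le_card h4
        rw [card_insert_of_notMem h5, card_insert_of_notMem hVA, card_insert_of_notMem hAB3,
          card_singleton] at h6
        omega
      · left
        refine ⟨0, ?_⟩
        have h4 : F ⊆ V.powerset.erase ∅ := by
          intro X hX
          rw [mem_erase]
          exact ⟨fun h => he (h ▸ hX), mem_powerset.2 (hFV X hX)⟩
        have h5 := card_le_card h4
        rw [card_erase_of_mem (by simp), card_powerset, hV2] at h5
        have h6 : ∑ X ∈ ({V, A, B} : Finset (Finset α)), X.card ≤ ∑ X ∈ F, X.card :=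
          sum_le_sum_of_subset hsub3
        rw [sum_insert hVA, sum_insert hAB3, sum_singleton] at h6
        norm_num at h5 ⊢
        rw [hV2]
        omega
    left
    obtain ⟨S, hSV, hinj, hedge⟩ := exists_min_sep V F hFV
    set G := F.image (fun A => A ∩ S) with hGdef
    have hGcard : G.card = F.card := card_image_of_injOn hinj
    have hGUC : UC G := by
      intro X hX Y hY
      obtain ⟨X', hX', rfl⟩ := mem_image.1 hX
      obtain ⟨Y', hY', rfl⟩ := mem_image.1 hY
      rw [hGdef, mem_image]
      exact ⟨X' ∪ Y', hF X' hX' Y' hY', union_inter_distrib_right _ _ _⟩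
    have hGS : ∀ X ∈ G, X ⊆ S := by
      intro X hX
      obtain ⟨X', hX', rfl⟩ := mem_image.1 hX
      exact inter_subset_right
    have hSG : S ∈ G := by
      rw [hGdef, mem_image]
      exact ⟨V, hV, inter_eq_right.2 hSV⟩
    have hGedge : ∀ a ∈ S, ∃ X ∈ G, a ∉ X ∧ insert a X ∈ G := by
      intro a ha
      obtain ⟨X, hX, Y, hY, haX, haY, h⟩ := hedge a ha
      refine ⟨X ∩ S, mem_image_of_mem _ hX, fun h' => haX (mem_inter.1 h').1, ?_⟩
      rw [← h]
      exact mem_image_of_mem _ hY
    obtain ⟨hch1, hch2⟩ := chain_bound S G hGUC hGS hGedge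
    have hGm : (G.erase S).card = m := by
      rw [card_erase_of_mem hSG, hGcard, hFcard]
      omega
    have hw := weight_top S G hGUC hGS hSG k (by rw [hGm]; exact h0)
    rw [hGm] at hw hch2
    have hsumG : ∑ X ∈ G, X.card = ∑ X ∈ G.erase S, X.card + S.card := by
      rw [sum_erase_add _ _ hSG]
    have hsumG' : ∑ X ∈ G, X.card = ∑ X ∈ F, (X ∩ S).card := by
      rw [hGdef, sum_image hinj]
    have hsplit : ∑ X ∈ F, X.card = ∑ X ∈ F, (X ∩ S).card + ∑ X ∈ F, (X \ S).card := by
      rw [← sum_add_distrib]
      apply sum_congr rfl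
      intro X _
      exact (card_inter_add_card_sdiff X S).symm
    have hthree : 2 * (V \ S).card ≤ ∑ X ∈ F, (X \ S).card := by
      have h1 : ∑ X ∈ ({V, A, B} : Finset (Finset α)), (X \ S).card ≤ ∑ X ∈ F, (X \ S).card :=
        sum_le_sum_of_subset hsub3
      rw [sum_insert hVA, sum_insert hAB3, sum_singleton] at h1
      have h2 : (V \ S).card ≤ (A \ S).card + (B \ S).card := by
        calc (V \ S).card = (A \ S ∪ B \ S).card := by rw [← union_sdiff_distrib, hAB']
          _ ≤ _ := card_union_le _ _
      omega
    have hVS : (V \ S).card = V.card - S.card := card_sdiff_of_subset hSV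
    have hSV' : S.card ≤ V.card := card_le_card hSV
    have h4 : m + 1 ≤ 2 ^ S.card := by
      rw [← card_powerset, ← hFcard, ← hGcard]
      exact card_le_card (fun X hX => mem_powerset.2 (hGS X hX))
    have hns : V.card - (V.card - S.card) = S.card := by omega
    obtain ⟨k', hk'⟩ := case2_strict k m V.card (V.card - S.card) (∑ X ∈ G.erase S, X.card) hn3 h0
      h0' (by omega) hw (by rw [hns]; exact hch1) (by rw [hns]; exact hch2) (by rw [hns]; exact h4)
    refine ⟨k', ?_⟩
    rw [hFcard]
    refine hk'.trans_le ?_
    gcongr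
    omega

end Pool.Agent.Y205.WM
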